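import Pool.Agent.Q227.Vis.Univ
import Pool.Agent.H429R2.Auto

set_option autoImplicit false

/-! The automaton `F` (multiplication by `3/2` in base six) is disjoint from minimal systems. -/

open Set Topology Filter

namespace Pool.Agent.Q227.Vis

open Pool.Agent.Q227.Fur Pool.Agent.H429R2.Auto

universe v

/-! ### continuity, bijectivity -/

lemma continuous_mul3 : Continuous mul3 := by
  refine continuous_pi fun i => ?_
  have h1 : Continuous fun x : Conf => (x i, x (i + 1)) :=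
    (continuous_apply i).prodMk (continuous_apply (i + 1))
  exact (continuous_of_discreteTopology (f := fun s : Fin 6 × Fin 6 => f s.1 s.2)).comp h1

lemma continuous_shiftR : Continuous shiftR := continuous_pi fun i => continuous_apply (i - 1)

lemma continuous_F : Continuous F := continuous_mul3.comp (continuous_mul3.comp continuous_shiftR)

/-- the local rule of the multiplication by two -/
def g2 (s t : Fin 6) : Fin 6 := ⟨(2 * (s : ℕ)) % 6 + (2 * (t : ℕ)) / 6, by omega⟩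

/-- the multiplication by two -/
def mul2 (x : Conf) : Conf := fun i => g2 (x i) (x (i + 1))

lemma rule32 : ∀ s t u : Fin 6, f (g2 s t) (g2 t u) = t := by decide

lemma rule23 : ∀ s t u : Fin 6, g2 (f s t) (f t u) = t := by decide

lemma mul32 (x : Conf) : mul3 (mul2 x) = fun i => x (i + 1) := by
  funext i
  exact rule32 _ _ _

lemma mul23 (x : Conf) : mul2 (mul3 x) = fun i => x (i + 1) := by
  funext i
  exact rule23 _ _ _

lemma mul3_inj : Function.Injective mul3 := by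
  intro x y h
  have h1 := congrArg mul2 h
  rw [mul23, mul23] at h1
  funext i
  have := congrFun h1 (i - 1)
  simpa using this

lemma mul3_surj : Function.Surjective mul3 := by
  intro y
  refine ⟨mul2 (fun i => y (i - 1)), ?_⟩
  rw [mul32]
  funext i
  simp

lemma F_inj : Function.Injective F :=
  mul3_inj.comp (mul3_inj.comp fun x y h => by
    funext i
    have := congrFun h (i + 1)
    simpa [shiftR] using this)

lemma F_surj : Function.Surjective F :=
  mul3_surj.comp (mul3_surj.comp fun y => ⟨fun i => y (i + 1), by funext i; simp [shiftR]⟩)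

/-! ### dense periodic points -/

/-- spatially periodic configurations -/
def Per (r : ℕ) : Set Conf := {x | ∀ i : ℤ, x (i + r) = x i}

lemma per_shift {r : ℕ} {x : Conf} (h : x ∈ Per r) (k i : ℤ) : x (i + k * r) = x i := by
  induction k using Int.induction_on with
  | zero => simp
  | succ k ih =>
    rw [show i + ((k : ℤ) + 1) * r = (i + (k : ℤ) * r) + r by ring, h, ih]
  | pred k ih =>
    rw [← h, show i + (-(k : ℤ) - 1) * r + r = i + (-(k : ℤ)) * r by ring, ih]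

lemma F_per {r : ℕ} {x : Conf} (h : x ∈ Per r) : F x ∈ Per r := by
  intro i
  show f _ _ = f _ _
  unfold mul3 shiftR
  have h1 : ∀ j : ℤ, x (j + r) = x j := h
  rw [show i + (r : ℤ) - 1 = (i - 1) + r by ring, h1, show i + (r : ℤ) + 1 - 1 = (i + 1 - 1) + r by ring,
    h1, show i + (r : ℤ) + 1 + 1 - 1 = (i + 1 + 1 - 1) + r by ring, h1]

lemma per_finite {r : ℕ} (hr : 1 ≤ r) : (Per r).Finite := by
  refine Set.Finite.of_injOn (f := fun (x : Conf) (j : Fin r) => x (j : ℕ)) (t := univ)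
    (fun _ _ => mem_univ _) ?_ (Set.toFinite _)
  intro x hx y hy hxy
  funext i
  have hr' : (r : ℤ) ≠ 0 := by omega
  have h1 := Int.emod_nonneg i hr'
  have h2 := Int.emod_lt_of_pos i (by omega : (0 : ℤ) < r)
  obtain ⟨k, hk⟩ := Int.eq_ofNat_of_zero_le h1
  have hk' : k < r := by omega
  have h3 : i = (k : ℤ) + i / r * r := by
    have := Int.emod_add_ediv_mul i r
    rw [hk] at this
    exact this.symm
  rw [h3, per_shift hx, per_shift hy]
  exact congrFun hxy ⟨k, hk'⟩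

lemma per_point {r : ℕ} (hr : 1 ≤ r) {x : Conf} (hx : x ∈ Per r) :
    ∃ n : ℕ, 1 ≤ n ∧ ∀ k : ℕ, F^[n * k] x = x := by
  have : Finite (Per r) := (per_finite hr).to_subtype
  let G : Per r → Per r := fun z => ⟨F z.1, F_per z.2⟩
  have hG : Function.Injective G := by
    intro a b h
    exact Subtype.ext (F_inj (congrArg Subtype.val h))
  obtain ⟨n, hn, hp⟩ := hG.mem_periodicPts ⟨x, hx⟩
  have hit : ∀ k : ℕ, ∀ z : Per r, ((G^[k] z : Per r) : Conf) = F^[k] z.1 := by
    intro k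
    induction k with
    | zero => intro z; rfl
    | succ k ih =>
      intro z
      rw [Function.iterate_succ_apply, Function.iterate_succ_apply, ih]
  have hF : F^[n] x = x := by
    have h1 := hit n ⟨x, hx⟩
    rw [hp] at h1
    exact h1.symm
  refine ⟨n, hn, fun k => ?_⟩
  rw [Function.iterate_mul]
  exact Function.iterate_fixed hF k

/-- neighbourhoods contain cylinders -/
lemma cyl {V : Set Conf} (hV : IsOpen V) {x₀ : Conf} (hx : x₀ ∈ V) :
    ∃ m : ℕ, ∀ x : Conf, (∀ i : ℤ, -(m : ℤ) ≤ i → i ≤ m → x i = x₀ i) → x ∈ V := by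
  obtain ⟨I, u, hu, hI⟩ := isOpen_pi_iff.1 hV x₀ hx
  refine ⟨I.sup Int.natAbs, fun x h => hI ?_⟩
  intro i hi
  have h1 : i.natAbs ≤ I.sup Int.natAbs := Finset.le_sup (f := Int.natAbs) hi
  rw [h i (by omega) (by omega)]
  exact (hu i hi).2

lemma dense_periodic : Dense {z : Conf | ∃ r : ℕ, 1 ≤ r ∧ ∀ k : ℕ, F^[r * k] z = z} := by
  rw [dense_iff_inter_open]
  rintro V hV ⟨x₀, hx₀⟩
  obtain ⟨m, hm⟩ := cyl hV hx₀
  set z : Conf := fun i => x₀ ((i + m) % ((2 * m + 1 : ℕ) : ℤ) - m) with hz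
  have hzp : z ∈ Per (2 * m + 1) := by
    intro i
    show x₀ _ = x₀ _
    congr 2
    rw [show i + ((2 * m + 1 : ℕ) : ℤ) + (m : ℤ) = (i + m) + ((2 * m + 1 : ℕ) : ℤ) by ring,
      Int.add_emod_right]
  refine ⟨z, hm z fun i h1 h2 => ?_, per_point (by omega) hzp⟩
  show x₀ _ = x₀ _
  congr 1
  rw [Int.emod_eq_of_lt (by omega) (by push_cast; omega)]
  ring

/-! ### transitivity -/

/-- the canonical expansion -/
noncomputable def dig (β : ℝ) : Conf := fun i => ⟨⌊(6 : ℝ) ^ i * β⌋₊ % 6, Nat.mod_lt _ (by norm_num)⟩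

lemma rep_dig (β : ℝ) : Rep (dig β) β := fun _ => rfl

/-- the cells `-m, …, m` from the integer part of `6 ^ m β` -/
lemma cells {x : Conf} {β : ℝ} (hx : Rep x β) (m : ℕ) {i : ℤ} (h1 : -(m : ℤ) ≤ i)
    (h2 : i ≤ m) : ((x i : Fin 6) : ℕ) = ⌊(6 : ℝ) ^ m * β⌋₊ / 6 ^ (m - i).toNat % 6 := by
  rw [hx i]
  obtain ⟨s, hs⟩ := Int.eq_ofNat_of_zero_le (by omega : 0 ≤ (m : ℤ) - i)
  rw [hs, Int.toNat_natCast, show i = (m : ℤ) - s by omega, zpow_sub₀ (by norm_num), zpow_natCast,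
    zpow_natCast]
  congr 1
  rw [show (6 : ℝ) ^ m / 6 ^ s * β = (6 ^ m * β) / ((6 ^ s : ℕ) : ℝ) by push_cast; ring,
    Nat.floor_div_natCast]

lemma transitive {U V : Set Conf} (hU : IsOpen U) (hUn : U.Nonempty) (hV : IsOpen V)
    (hVn : V.Nonempty) {r : ℕ} (hr : 1 ≤ r) : ∃ n : ℕ, ∃ x ∈ V, F^[r * n] x ∈ U := by
  obtain ⟨x₀, hx₀⟩ := hVn
  obtain ⟨y₀, hy₀⟩ := hUn
  obtain ⟨m₁, hm₁⟩ := cyl hV hx₀
  obtain ⟨m₂, hm₂⟩ := cyl hU hy₀
  obtain ⟨m, hm⟩ : ∃ m, m = max m₁ m₂ := ⟨_, rfl⟩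
  have hm1 : m₁ ≤ m := hm ▸ le_max_left _ _
  have hm2 : m₂ ≤ m := hm ▸ le_max_right _ _
  set D : ℕ := ∑ s ∈ Finset.range (2 * m + 1), ((x₀ ((m : ℤ) - s) : Fin 6) : ℕ) * 6 ^ s with hD
  set C : ℕ := ∑ s ∈ Finset.range (2 * m + 1), ((y₀ ((m : ℤ) - s) : Fin 6) : ℕ) * 6 ^ s with hC
  have hClt : C < 6 ^ (2 * m + 1) := sum_lt_pow (by norm_num) _ _ fun i => Fin.isLt _
  obtain ⟨n, hn⟩ := pow_unbounded_of_one_lt ((6 : ℝ) ^ (2 * m + 1)) (by norm_num : (1 : ℝ) < 3 / 2)
  set P : ℝ := (3 / 2) ^ (r * n) with hP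
  have hPn : (6 : ℝ) ^ (2 * m + 1) ≤ P := by
    refine hn.le.trans ?_
    exact pow_le_pow_right₀ (by norm_num) (Nat.le_mul_of_pos_left _ hr)
  have hP0 : 0 < P := by positivity
  set Q : ℝ := (6 : ℝ) ^ (2 * m + 1) with hQ
  have hQ0 : 0 < Q := by positivity
  set q : ℕ := ⌈(P * D - C) / Q⌉₊ with hq
  set z : ℕ := C + 6 ^ (2 * m + 1) * q with hz
  have hzR : (z : ℝ) = C + Q * q := by rw [hz]; push_cast; rfl
  have hz1 : P * D ≤ z := by
    have h1 := Nat.le_ceil ((P * D - C) / Q)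
    rw [div_le_iff₀ hQ0] at h1
    rw [hzR]
    linarith
  have hz2 : (z : ℝ) < P * (D + 1) := by
    have hCR : (C : ℝ) < Q := by rw [hQ]; exact_mod_cast hClt
    rcases le_or_gt ((P * D - C) / Q) 0 with h | h
    · have h1 : q = 0 := Nat.ceil_eq_zero.2 h
      rw [hzR, h1]
      have h2 : (0 : ℝ) ≤ P * D := by positivity
      push_cast
      nlinarith
    · have h1 := Nat.ceil_lt_add_one h.le
      have h2 : (q : ℝ) * Q < P * D - C + Q := by
        have h3 : (q : ℝ) < (P * D - C) / Q + 1 := h1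
        calc (q : ℝ) * Q < ((P * D - C) / Q + 1) * Q := mul_lt_mul_of_pos_right h3 hQ0
          _ = P * D - C + Q := by field_simp
      rw [hzR]
      nlinarith
  set β : ℝ := z / (P * 6 ^ m) with hβ
  have hβ0 : 0 ≤ β := by positivity
  have e1 : (6 : ℝ) ^ m * β = z / P := by rw [hβ]; field_simp
  have hfl : ⌊(6 : ℝ) ^ m * β⌋₊ = D := by
    rw [e1, Nat.floor_eq_iff (by positivity)]
    constructor
    · rw [le_div_iff₀ hP0]; linarith
    · rw [div_lt_iff₀ hP0]; linarith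
  refine ⟨n, dig β, hm₁ _ fun i h1 h2 => ?_, hm₂ _ fun i h1 h2 => ?_⟩
  · apply Fin.ext
    rw [cells (rep_dig β) m (by omega) (by omega), hfl]
    obtain ⟨s, hs⟩ := Int.eq_ofNat_of_zero_le (by omega : 0 ≤ (m : ℤ) - i)
    rw [hs, Int.toNat_natCast, hD, digit_sum (by norm_num) (2 * m + 1)
      (fun s => ((x₀ ((m : ℤ) - s) : Fin 6) : ℕ)) (fun i => Fin.isLt _) s (by omega)]
    congr 2
    omega
  · apply Fin.ext
    have h3 := rep_iter hβ0 (rep_dig β) (r * n)
    rw [cells h3 m (by omega) (by omega)]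
    have e2 : (6 : ℝ) ^ m * ((3 / 2) ^ (r * n) * β) = ((z : ℕ) : ℝ) := by
      rw [← hP, hβ]; field_simp
    rw [e2, Nat.floor_natCast]
    obtain ⟨s, hs⟩ := Int.eq_ofNat_of_zero_le (by omega : 0 ≤ (m : ℤ) - i)
    rw [hs, Int.toNat_natCast]
    have e3 : z / 6 ^ s % 6 = C / 6 ^ s % 6 := by
      rw [hz]
      obtain ⟨e, he⟩ : ∃ e, 2 * m + 1 = s + 1 + e := ⟨2 * m - s, by omega⟩
      rw [he, pow_add, pow_succ, show 6 ^ s * 6 * 6 ^ e * q = 6 ^ s * (6 * (6 ^ e * q)) by ring,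
        Nat.add_mul_div_left _ _ (by positivity), Nat.add_mul_mod_self_left]
    rw [e3, hC, digit_sum (by norm_num) (2 * m + 1)
      (fun s => ((y₀ ((m : ℤ) - s) : Fin 6) : ℕ)) (fun i => Fin.isLt _) s (by omega)]
    congr 2
    omega

/-- some configuration has dense orbits under all powers of `F` -/
lemma exists_gen_F : ∃ x : Conf, ∀ r : ℕ, 1 ≤ r → Dense (range fun n : ℕ => F^[r * n] x) := by
  have hb := TopologicalSpace.countable_countableBasis Conf
  have : Countable (TopologicalSpace.countableBasis Conf) := hb.to_subtype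
  set O : ℕ × TopologicalSpace.countableBasis Conf → Set Conf :=
    fun w => ⋃ n : ℕ, (F^[(w.1 + 1) * n]) ⁻¹' w.2.1 with hO
  have h1 : ∀ w, IsOpen (O w) := fun w => isOpen_iUnion fun n =>
    (TopologicalSpace.isOpen_of_mem_countableBasis w.2.2).preimage (continuous_F.iterate _)
  have h2 : ∀ w, Dense (O w) := by
    intro w
    rw [dense_iff_inter_open]
    intro V hV hVn
    obtain ⟨n, x, hx, hx2⟩ := transitive (TopologicalSpace.isOpen_of_mem_countableBasis w.2.2)
      (TopologicalSpace.nonempty_of_mem_countableBasis w.2.2) hV hVn (r := w.1 + 1) (by omega)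
    exact ⟨x, hx, mem_iUnion.2 ⟨n, hx2⟩⟩
  have h3 := dense_iInter_of_isOpen h1 h2
  obtain ⟨x, hx⟩ := h3.nonempty
  refine ⟨x, fun r hr => ?_⟩
  rw [(TopologicalSpace.isBasis_countableBasis Conf).dense_iff]
  intro o ho _
  obtain ⟨r, rfl⟩ : ∃ r', r = r' + 1 := ⟨r - 1, by omega⟩
  have h4 := mem_iInter.1 hx (r, ⟨o, ho⟩)
  obtain ⟨n, hn⟩ := mem_iUnion.1 h4
  exact ⟨_, hn, ⟨n, rfl⟩⟩

variable {Y : Type v} [TopologicalSpace Y]

/-- **Disjointness of the automaton from minimal systems.** -/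
theorem F_disjoint [CompactSpace Y] [T2Space Y] {S : Y → Y} (hS : Continuous S)
    (hm : ∀ y, Dense (range fun n : ℕ => S^[n] y)) {x : Conf}
    (hx : ∀ r : ℕ, 1 ≤ r → Dense (range fun n : ℕ => F^[r * n] x)) (y : Y) :
    Dense (range fun n : ℕ => (F^[n] x, S^[n] y)) :=
  Act.disjoint (A := iterAct F continuous_F) (S := iterAct S hS)
    (fun m => F_surj.iterate m) hm (fun r hr => ⟨_, finRep_nat r hr⟩) dense_periodic (x := x) hx y

end Pool.Agent.Q227.Vis
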