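import Pool.Agent.Q227.Vis.Auto

set_option autoImplicit false

/-! Universal words for the columns of the automaton `F`. -/

open Set Topology Filter

namespace Pool.Agent.Q227.Vis

open Pool.Agent.Q227.Fur Pool.Agent.H429R2.Auto

universe v

lemma F_apply (x : Conf) (i : ℤ) : F x i = f (f (x (i - 1)) (x i)) (f (x i) (x (i + 1))) := by
  show f (f (x (i - 1)) (x (i + 1 - 1))) (f (x (i + 1 - 1)) (x (i + 1 + 1 - 1))) = _
  rw [show i + 1 - 1 = i by ring, show i + 1 + 1 - 1 = i + 1 by ring]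

/-- locality -/
lemma F_local (n : ℕ) : ∀ (x x' : Conf) (a b : ℤ),
    (∀ i : ℤ, a - n ≤ i → i ≤ b + n → x i = x' i) →
    ∀ i : ℤ, a ≤ i → i ≤ b → F^[n] x i = F^[n] x' i := by
  induction n with
  | zero => intro x x' a b h i h1 h2; exact h i (by simpa using h1) (by simpa using h2)
  | succ n ih =>
    intro x x' a b h i h1 h2
    rw [Function.iterate_succ_apply', Function.iterate_succ_apply', F_apply, F_apply]
    have h3 := ih x x' (a - 1) (b + 1) (fun j hj1 hj2 => h j (by push_cast; omega)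
      (by push_cast; omega))
    rw [h3 (i - 1) (by omega) (by omega), h3 i (by omega) (by omega),
      h3 (i + 1) (by omega) (by omega)]

/-- equivariance -/
lemma F_trans (p : ℤ) (n : ℕ) (x : Conf) : F^[n] (fun i => x (i + p)) = fun i => F^[n] x (i + p) := by
  induction n with
  | zero => rfl
  | succ n ih =>
    rw [Function.iterate_succ_apply', ih]
    funext i
    rw [F_apply, Function.iterate_succ_apply', F_apply]
    rw [show i - 1 + p = i + p - 1 by ring, show i + 1 + p = i + p + 1 by ring]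

variable {Y : Type v} [TopologicalSpace Y]

/-- bounded visits of a generic configuration -/
lemma univ_ptF [CompactSpace Y] [T2Space Y] {S : Y → Y} (hS : Continuous S)
    (hm : ∀ y, Dense (range fun n : ℕ => S^[n] y)) {W : Set Y} (hW : IsOpen W) (hWn : W.Nonempty)
    {x : Conf} (hx : ∀ r : ℕ, 1 ≤ r → Dense (range fun n : ℕ => F^[r * n] x))
    {U : Set Conf} (hU : IsOpen U) (hUn : U.Nonempty) :
    ∃ N : ℕ, ∀ y : Y, ∃ n ≤ N, F^[n] x ∈ U ∧ S^[n] y ∈ W := by
  set O : ℕ → Set Y := fun n => {y | F^[n] x ∈ U ∧ S^[n] y ∈ W} with hO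
  have hOo : ∀ n, IsOpen (O n) := by
    intro n
    by_cases h : F^[n] x ∈ U
    · have : O n = (fun y => S^[n] y) ⁻¹' W := by
        ext y; simp [hO, h]
      rw [this]
      exact hW.preimage (hS.iterate n)
    · have : O n = ∅ := by
        ext y; simp [hO, h]
      rw [this]
      exact isOpen_empty
  have hcov : (univ : Set Y) ⊆ ⋃ n, O n := by
    intro y _
    have hd := F_disjoint hS hm hx y
    obtain ⟨w, hw1, ⟨n, rfl⟩⟩ := hd.inter_open_nonempty (U ×ˢ W) (hU.prod hW) (hUn.prod hWn)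
    exact mem_iUnion.2 ⟨n, hw1⟩
  obtain ⟨t, ht⟩ := isCompact_univ.elim_finite_subcover O hOo hcov
  refine ⟨t.sup id, fun y => ?_⟩
  have hy := ht (mem_univ y)
  rw [mem_iUnion₂] at hy
  obtain ⟨n, hn, h1, h2⟩ := hy
  exact ⟨n, Finset.le_sup (f := id) hn, h1, h2⟩

/-- **Universal words for columns.** There are a word `v` and `N` such that, if `x` shows `v` from the
cell `p - N` on, then for each `y` every word `w` of length `L` is shown by `F^n x` from the cell `p`
on at some time `n ≤ N` with `S ^ n y ∈ W`. -/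
theorem univ_col [CompactSpace Y] [T2Space Y] {S : Y → Y} (hS : Continuous S)
    (hm : ∀ y, Dense (range fun n : ℕ => S^[n] y)) {W : Set Y} (hW : IsOpen W) (hWn : W.Nonempty)
    (L : ℕ) : ∃ (v : List (Fin 6)) (N : ℕ), ∀ (x : Conf) (p : ℤ),
      (∀ (i : ℕ) (h : i < v.length), x (p - N + i) = v[i]) → ∀ y : Y, ∀ w : List (Fin 6),
      w.length = L → ∃ n ≤ N, S^[n] y ∈ W ∧
        ∀ (i : ℕ) (h : i < w.length), F^[n] x (p + i) = w[i] := by
  obtain ⟨z, hz⟩ := exists_gen_F
  set U : (Fin L → Fin 6) → Set Conf := fun w => {x | ∀ i : Fin L, x ((i : ℕ) : ℤ) = w i} with hU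
  have hUo : ∀ w, IsOpen (U w) := by
    intro w
    have : U w = ⋂ i : Fin L, (fun x : Conf => x ((i : ℕ) : ℤ)) ⁻¹' {w i} := by
      ext x; simp [hU]
    rw [this]
    exact isOpen_iInter_of_finite fun i => (isOpen_discrete _).preimage (continuous_apply _)
  have hUn : ∀ w, (U w).Nonempty := by
    intro w
    refine ⟨fun j => if h : j.toNat < L then w ⟨j.toNat, h⟩ else 0, fun i => ?_⟩
    show (if h : ((i : ℕ) : ℤ).toNat < L then w ⟨((i : ℕ) : ℤ).toNat, h⟩ else 0) = w i
    simp only [Int.toNat_natCast, i.isLt, dite_true]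
  choose N hN using fun w => univ_ptF hS hm hW hWn hz (hUo w) (hUn w)
  set M : ℕ := Finset.univ.sup N with hM
  refine ⟨List.ofFn fun j : Fin (2 * M + L) => z ((j : ℕ) - M : ℤ), M, fun x p hx y w hw => ?_⟩
  obtain ⟨n, hn, hn1, hn2⟩ := hN (fun i => w[(i : ℕ)]'(by have := i.isLt; omega)) y
  have hnM : n ≤ M := hn.trans (Finset.le_sup (f := N) (Finset.mem_univ _))
  refine ⟨n, hnM, hn2, fun i hi => ?_⟩
  have h1 := F_trans p n x
  have h2 : F^[n] x (p + i) = F^[n] (fun j => x (j + p)) i := by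
    rw [h1]
    show _ = F^[n] x ((i : ℤ) + p)
    rw [add_comm]
  have h3 : F^[n] (fun j => x (j + p)) i = F^[n] z i := by
    refine F_local n _ z 0 (L - 1) (fun j hj1 hj2 => ?_) i (by omega) (by omega)
    obtain ⟨k, hk⟩ := Int.eq_ofNat_of_zero_le (by omega : 0 ≤ j + M)
    have h4 := hx k (by rw [List.length_ofFn]; omega)
    rw [List.getElem_ofFn] at h4
    show x (j + p) = z j
    rw [show j + p = p - M + k by omega, h4]
    congr 1
    show ((k : ℕ) : ℤ) - M = j
    omega
  rw [h2, h3]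
  exact hn1 ⟨i, by omega⟩

end Pool.Agent.Q227.Vis
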