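import Pool.Agent.Q227.Vis.Col

set_option autoImplicit false

/-! Universal words for the space-time diagrams of the automaton `F`, for minimal actions of `ℕ × ℕ`. -/

open Set Topology Filter

namespace Pool.Agent.Q227.Vis

open Pool.Agent.Q227.Fur Pool.Agent.H429R2.Auto

universe v

/-- the left shift -/
def sh (x : Conf) : Conf := fun i => x (i + 1)

lemma continuous_sh : Continuous sh := continuous_pi fun i => continuous_apply (i + 1)

lemma sh_iter (p : ℕ) (x : Conf) : sh^[p] x = fun i => x (i + p) := by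
  induction p with
  | zero => funext i; simp
  | succ p ih =>
    rw [Function.iterate_succ_apply', ih]
    funext i
    show x (i + 1 + p) = x (i + ((p + 1 : ℕ) : ℤ))
    congr 1
    push_cast
    ring

lemma comm_F_sh : Function.Commute F sh := by
  intro x
  have h := F_trans 1 1 x
  exact h

lemma F_sh_apply (n p : ℕ) (x : Conf) (i : ℤ) : F^[n] (sh^[p] x) i = F^[n] x (i + p) := by
  rw [sh_iter, F_trans]

lemma sh_surj : Function.Surjective sh := fun y => ⟨fun i => y (i - 1), by funext i; simp [sh]⟩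

lemma dense_periodic2 : Dense {z : Conf | ∃ r : ℕ, 1 ≤ r ∧ ∀ k : ℕ × ℕ,
    F^[(r • k).1] (sh^[(r • k).2] z) = z} := by
  rw [dense_iff_inter_open]
  rintro V hV ⟨x₀, hx₀⟩
  obtain ⟨m, hm⟩ := cyl hV hx₀
  set z : Conf := fun i => x₀ ((i + m) % ((2 * m + 1 : ℕ) : ℤ) - m) with hz
  have hzp : z ∈ Per (2 * m + 1) := by
    intro i
    show x₀ _ = x₀ _
    congr 2
    rw [show i + ((2 * m + 1 : ℕ) : ℤ) + (m : ℤ) = (i + m) + ((2 * m + 1 : ℕ) : ℤ) by ring,
      Int.add_emod_right]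
  obtain ⟨n, hn, hnk⟩ := per_point (by omega) hzp
  refine ⟨z, hm z fun i h1 h2 => ?_, n * (2 * m + 1), Nat.mul_pos hn (by omega), fun k => ?_⟩
  · show x₀ _ = x₀ _
    congr 1
    rw [Int.emod_eq_of_lt (by omega) (by push_cast; omega)]
    ring
  · have h1 : sh^[(((n * (2 * m + 1)) • k).2)] z = z := by
      rw [sh_iter]
      funext i
      have e : (((((n * (2 * m + 1)) • k).2 : ℕ)) : ℤ) = (n * k.2 : ℤ) * ((2 * m + 1 : ℕ) : ℤ) := by
        simp only [Prod.smul_snd, smul_eq_mul]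
        push_cast
        ring
      rw [e, per_shift hzp]
    rw [h1]
    have e : ((n * (2 * m + 1)) • k).1 = n * ((2 * m + 1) * k.1) := by
      simp only [Prod.smul_fst, smul_eq_mul]
      ring
    rw [e, hnk]

variable {Y : Type v} [TopologicalSpace Y]

/-- **Disjointness from minimal actions of `ℕ × ℕ`.** -/
theorem F_disjoint2 [CompactSpace Y] [T2Space Y] {S₁ S₂ : Y → Y} (h₁ : Continuous S₁)
    (h₂ : Continuous S₂) (hc : Function.Commute S₁ S₂)
    (hm : ∀ y, Dense (range fun n : ℕ × ℕ => S₁^[n.1] (S₂^[n.2] y))) {x : Conf}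
    (hx : ∀ r : ℕ, 1 ≤ r → Dense (range fun n : ℕ => F^[r * n] x)) (y : Y) :
    Dense (range fun n : ℕ × ℕ => (F^[n.1] (sh^[n.2] x), S₁^[n.1] (S₂^[n.2] y))) := by
  refine Act.disjoint (A := iterAct2 F sh continuous_F continuous_sh comm_F_sh)
    (S := iterAct2 S₁ S₂ h₁ h₂ hc) (fun m => (F_surj.iterate m.1).comp (sh_surj.iterate m.2)) hm
    (fun r hr => ⟨_, finRep_nat2 r hr⟩) dense_periodic2 (x := x) (fun r hr => ?_) y
  refine (hx r hr).mono ?_
  rintro _ ⟨n, rfl⟩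
  refine ⟨(n, 0), ?_⟩
  show F^[(r • (n, 0) : ℕ × ℕ).1] (sh^[(r • (n, 0) : ℕ × ℕ).2] x) = F^[r * n] x
  simp

/-- bounded visits of a generic configuration -/
lemma univ_ptF2 [CompactSpace Y] [T2Space Y] {S₁ S₂ : Y → Y} (h₁ : Continuous S₁)
    (h₂ : Continuous S₂) (hc : Function.Commute S₁ S₂)
    (hm : ∀ y, Dense (range fun n : ℕ × ℕ => S₁^[n.1] (S₂^[n.2] y))) {W : Set Y} (hW : IsOpen W)
    (hWn : W.Nonempty) {x : Conf} (hx : ∀ r : ℕ, 1 ≤ r → Dense (range fun n : ℕ => F^[r * n] x))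
    {U : Set Conf} (hU : IsOpen U) (hUn : U.Nonempty) :
    ∃ N : ℕ, ∀ y : Y, ∃ n ≤ N, ∃ p ≤ N, F^[n] (sh^[p] x) ∈ U ∧ S₁^[n] (S₂^[p] y) ∈ W := by
  set O : ℕ × ℕ → Set Y := fun n => {y | F^[n.1] (sh^[n.2] x) ∈ U ∧ S₁^[n.1] (S₂^[n.2] y) ∈ W} with hO
  have hOo : ∀ n, IsOpen (O n) := by
    intro n
    by_cases h : F^[n.1] (sh^[n.2] x) ∈ U
    · have : O n = (fun y => S₁^[n.1] (S₂^[n.2] y)) ⁻¹' W := by
        ext y; simp [hO, h]
      rw [this]
      exact hW.preimage ((h₁.iterate n.1).comp (h₂.iterate n.2))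
    · have : O n = ∅ := by
        ext y; simp [hO, h]
      rw [this]
      exact isOpen_empty
  have hcov : (univ : Set Y) ⊆ ⋃ n, O n := by
    intro y _
    have hd := F_disjoint2 h₁ h₂ hc hm hx y
    obtain ⟨w, hw1, ⟨n, rfl⟩⟩ := hd.inter_open_nonempty (U ×ˢ W) (hU.prod hW) (hUn.prod hWn)
    exact mem_iUnion.2 ⟨n, hw1⟩
  obtain ⟨t, ht⟩ := isCompact_univ.elim_finite_subcover O hOo hcov
  refine ⟨t.sup (fun n => max n.1 n.2), fun y => ?_⟩
  have hy := ht (mem_univ y)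
  rw [mem_iUnion₂] at hy
  obtain ⟨n, hn, h1, h2⟩ := hy
  have h3 := Finset.le_sup (f := fun n : ℕ × ℕ => max n.1 n.2) hn
  exact ⟨n.1, (le_max_left _ _).trans h3, n.2, (le_max_right _ _).trans h3, h1, h2⟩

/-- **Universal words for space-time diagrams.** There are a word `v` and `N` such that, if `x` shows
`v` from the cell `p - N` on, then for each `y` every word `w` of length `L` is shown by `F^n x` from
the cell `p + q` on for some `n, q ≤ N` with `S₁ ^ n S₂ ^ q y ∈ W`. -/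
theorem univ_col2 [CompactSpace Y] [T2Space Y] {S₁ S₂ : Y → Y} (h₁ : Continuous S₁)
    (h₂ : Continuous S₂) (hc : Function.Commute S₁ S₂)
    (hm : ∀ y, Dense (range fun n : ℕ × ℕ => S₁^[n.1] (S₂^[n.2] y))) {W : Set Y} (hW : IsOpen W)
    (hWn : W.Nonempty) (L : ℕ) : ∃ (v : List (Fin 6)) (N : ℕ), v.length = 3 * N + L ∧
      ∀ (x : Conf) (p : ℤ),
      (∀ (i : ℕ) (h : i < v.length), x (p - N + i) = v[i]) → ∀ y : Y, ∀ w : List (Fin 6),
      w.length = L → ∃ n ≤ N, ∃ q ≤ N, S₁^[n] (S₂^[q] y) ∈ W ∧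
        ∀ (i : ℕ) (h : i < w.length), F^[n] x (p + q + i) = w[i] := by
  obtain ⟨z, hz⟩ := exists_gen_F
  set U : (Fin L → Fin 6) → Set Conf := fun w => {x | ∀ i : Fin L, x ((i : ℕ) : ℤ) = w i} with hU
  have hUo : ∀ w, IsOpen (U w) := by
    intro w
    have : U w = ⋂ i : Fin L, (fun x : Conf => x ((i : ℕ) : ℤ)) ⁻¹' {w i} := by
      ext x; simp [hU]
    rw [this]
    exact isOpen_iInter_of_finite fun i => (isOpen_discrete _).preimage (continuous_apply _)
  have hUn : ∀ w, (U w).Nonempty := by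
    intro w
    refine ⟨fun j => if h : j.toNat < L then w ⟨j.toNat, h⟩ else 0, fun i => ?_⟩
    show (if h : ((i : ℕ) : ℤ).toNat < L then w ⟨((i : ℕ) : ℤ).toNat, h⟩ else 0) = w i
    simp only [Int.toNat_natCast, i.isLt, dite_true]
  choose N hN using fun w => univ_ptF2 h₁ h₂ hc hm hW hWn hz (hUo w) (hUn w)
  set M : ℕ := Finset.univ.sup N with hM
  refine ⟨List.ofFn fun j : Fin (3 * M + L) => z ((j : ℕ) - M : ℤ), M, by rw [List.length_ofFn],
    fun x p hx y w hw => ?_⟩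
  obtain ⟨n, hn, q, hq, hn1, hn2⟩ := hN (fun i => w[(i : ℕ)]'(by have := i.isLt; omega)) y
  have hNM := Finset.le_sup (f := N) (Finset.mem_univ (fun i : Fin L =>
    w[(i : ℕ)]'(by have := i.isLt; omega)))
  have hnM : n ≤ M := hn.trans hNM
  have hqM : q ≤ M := hq.trans hNM
  refine ⟨n, hnM, q, hqM, hn2, fun i hi => ?_⟩
  have h1 := F_trans p n x
  have h2 : F^[n] x (p + q + i) = F^[n] (fun j => x (j + p)) (q + i) := by
    rw [h1]
    show _ = F^[n] x (((q : ℤ) + i) + p)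
    rw [show (p + q + i : ℤ) = q + i + p by ring]
  have h3 : F^[n] (fun j => x (j + p)) (q + i) = F^[n] z (q + i) := by
    refine F_local n _ z 0 (M + L - 1) (fun j hj1 hj2 => ?_) (q + i) (by omega) (by omega)
    obtain ⟨k, hk⟩ := Int.eq_ofNat_of_zero_le (by omega : 0 ≤ j + M)
    have h4 := hx k (by rw [List.length_ofFn]; omega)
    rw [List.getElem_ofFn] at h4
    show x (j + p) = z j
    rw [show j + p = p - M + k by omega, h4]
    congr 1
    show ((k : ℕ) : ℤ) - M = j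
    omega
  rw [h2, h3]
  have h5 := hn1 ⟨i, by omega⟩
  rw [F_sh_apply] at h5
  rw [add_comm (q : ℤ) i]
  exact h5

end Pool.Agent.Q227.Vis
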