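import Pool.Agent.Q227.Vis.Col

set_option autoImplicit false

/-! A dense orbit of `F` is dense under all powers of `F`. -/

open Set Topology Filter

namespace Pool.Agent.Q227.Vis

open Pool.Agent.Q227.Fur Pool.Agent.H429R2.Auto

lemma dense_pow {x : Conf} (hx : Dense (range fun n : ℕ => F^[n] x)) (r : ℕ) (hr : 1 ≤ r) :
    Dense (range fun n : ℕ => F^[r * n] x) := by
  set C : Fin r → Set Conf := fun j => closure (range fun n : ℕ => F^[r * n + j] x) with hC
  have hcov : (⋃ j, C j) = univ := by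
    have h1 : IsClosed (⋃ j, C j) := isClosed_iUnion_of_finite fun j => isClosed_closure
    have h2 : (range fun n : ℕ => F^[n] x) ⊆ ⋃ j, C j := by
      rintro _ ⟨n, rfl⟩
      refine mem_iUnion.2 ⟨⟨n % r, Nat.mod_lt _ hr⟩, subset_closure ⟨n / r, ?_⟩⟩
      show F^[r * (n / r) + n % r] x = F^[n] x
      rw [Nat.div_add_mod]
    rw [← h1.closure_eq]
    exact (hx.mono h2).closure_eq
  have hint : ∃ j, (interior (C j)).Nonempty := by
    by_contra hcon
    push Not at hcon
    have h1 : ∀ j, Dense (C j)ᶜ := fun j => by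
      rw [← interior_eq_empty_iff_dense_compl]
      exact hcon j
    have h2 : ∀ j, IsOpen (C j)ᶜ := fun j => isClosed_closure.isOpen_compl
    have h3 := dense_iInter_of_isOpen h2 h1
    obtain ⟨z, hz⟩ := h3.nonempty
    have h4 : z ∈ ⋃ j, C j := by rw [hcov]; trivial
    obtain ⟨j, hj⟩ := mem_iUnion.1 h4
    exact mem_iInter.1 hz j hj
  obtain ⟨j, hj⟩ := hint
  have hinv : ∀ n : ℕ, ∀ z ∈ C j, F^[r * n] z ∈ C j := by
    intro n z hz
    refine map_mem_closure (continuous_F.iterate (r * n)) hz ?_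
    rintro _ ⟨k, rfl⟩
    refine ⟨n + k, ?_⟩
    show F^[r * (n + k) + j] x = F^[r * n] (F^[r * k + j] x)
    rw [← Function.iterate_add_apply]
    congr 1
    ring
  have hden : Dense (range fun n : ℕ => F^[r * n + (j : ℕ)] x) := by
    rw [dense_iff_inter_open]
    intro U hU hUn
    obtain ⟨n, z, hz, hzU⟩ := transitive hU hUn isOpen_interior hj hr
    have h1 : F^[r * n] z ∈ C j := hinv n z (interior_subset hz)
    obtain ⟨a, ha, hb⟩ := mem_closure_iff.1 h1 U hU hzU
    exact ⟨a, ha, hb⟩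
  have h1 := (F_surj.iterate (r - j)).denseRange.dense_image (continuous_F.iterate (r - (j : ℕ))) hden
  refine h1.mono ?_
  rintro _ ⟨_, ⟨n, rfl⟩, rfl⟩
  refine ⟨n + 1, ?_⟩
  show F^[r * (n + 1)] x = F^[r - (j : ℕ)] (F^[r * n + j] x)
  rw [← Function.iterate_add_apply]
  congr 1
  have := j.isLt
  rw [mul_add]
  omega

end Pool.Agent.Q227.Vis
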