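import Pool.Agent.Q227.Fur.Unif

set_option autoImplicit false

/-! Universal words: for a minimal system `(Y, S)`, an open set `W` and a length `L` there is one word
`V` such that, for every point `y`, every word of length `L` stands in `V` at a place `n` with
`S ^ n y ∈ W`. -/

open Set Topology Filter

namespace Pool.Agent.Q227.Vis

open Pool.Agent.Q227.Fur

universe v

variable {Y : Type v} [TopologicalSpace Y]

/-- bounded visits of a generic point -/
lemma univ_pt [CompactSpace Y] [T2Space Y] {b : ℕ} (hb : 2 ≤ b) {S : Y → Y} (hS : Continuous S)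
    (hm : ∀ y, Dense (range fun n : ℕ => S^[n] y)) {W : Set Y} (hW : IsOpen W) (hWn : W.Nonempty)
    {x : UnitAddCircle} (hx : ∀ r : ℕ, 1 ≤ r → Dense (range fun n : ℕ => (b ^ r) ^ n • x))
    {U : Set UnitAddCircle} (hU : IsOpen U) (hUn : U.Nonempty) :
    ∃ N : ℕ, ∀ y : Y, ∃ n ≤ N, b ^ n • x ∈ U ∧ S^[n] y ∈ W := by
  set O : ℕ → Set Y := fun n => {y | b ^ n • x ∈ U ∧ S^[n] y ∈ W} with hO
  have hOo : ∀ n, IsOpen (O n) := by
    intro n
    by_cases h : b ^ n • x ∈ U
    · have : O n = (fun y => S^[n] y) ⁻¹' W := by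
        ext y; simp [hO, h]
      rw [this]
      exact hW.preimage (hS.iterate n)
    · have : O n = ∅ := by
        ext y; simp [hO, h]
      rw [this]
      exact isOpen_empty
  have hcov : (univ : Set Y) ⊆ ⋃ n, O n := by
    intro y _
    have hd := dense_prod hb hS hm hx y
    obtain ⟨w, hw1, ⟨n, rfl⟩⟩ := hd.inter_open_nonempty (U ×ˢ W) (hU.prod hW) (hUn.prod hWn)
    exact mem_iUnion.2 ⟨n, hw1⟩
  obtain ⟨t, ht⟩ := isCompact_univ.elim_finite_subcover O hOo hcov
  refine ⟨t.sup id, fun y => ?_⟩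
  have hy := ht (mem_univ y)
  rw [mem_iUnion₂] at hy
  obtain ⟨n, hn, h1, h2⟩ := hy
  exact ⟨n, Finset.le_sup (f := id) hn, h1, h2⟩

/-- sums of digits -/
lemma digit_sum {b : ℕ} (hb : 2 ≤ b) : ∀ (L : ℕ) (d : ℕ → ℕ), (∀ i, d i < b) → ∀ i < L,
    (∑ r ∈ Finset.range L, d r * b ^ r) / b ^ i % b = d i := by
  intro L
  induction L with
  | zero => intro d hd i hi; omega
  | succ L ih =>
    intro d hd i hi
    have e : ∑ r ∈ Finset.range (L + 1), d r * b ^ r =
        d 0 + b * ∑ r ∈ Finset.range L, d (r + 1) * b ^ r := by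
      rw [Finset.sum_range_succ', Finset.mul_sum, add_comm]
      congr 1
      · simp
      · refine Finset.sum_congr rfl fun r _ => ?_
        rw [pow_succ]; ring
    rw [e]
    cases i with
    | zero => simp [Nat.mod_eq_of_lt (hd 0)]
    | succ i =>
      rw [pow_succ', ← Nat.div_div_eq_div_mul, Nat.add_mul_div_left _ _ (by omega : 0 < b),
        Nat.div_eq_of_lt (hd 0), zero_add]
      exact ih (fun r => d (r + 1)) (fun r => hd _) i (by omega)

lemma sum_lt_pow {b : ℕ} (hb : 2 ≤ b) (L : ℕ) (d : ℕ → ℕ) (hd : ∀ i, d i < b) :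
    ∑ r ∈ Finset.range L, d r * b ^ r < b ^ L := by
  induction L with
  | zero => simp
  | succ L ih =>
    rw [Finset.sum_range_succ, pow_succ]
    have h1 : d L * b ^ L ≤ (b - 1) * b ^ L := Nat.mul_le_mul_right _ (by have := hd L; omega)
    have h2 : (b - 1) * b ^ L + b ^ L = b ^ L * b := by
      obtain ⟨c, rfl⟩ : ∃ c, b = c + 1 := ⟨b - 1, by omega⟩
      simp only [Nat.add_sub_cancel]
      ring
    omega

/-- **Universal words.** -/
theorem univ_word [CompactSpace Y] [T2Space Y] {b : ℕ} (hb : 2 ≤ b) {S : Y → Y}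
    (hS : Continuous S) (hm : ∀ y, Dense (range fun n : ℕ => S^[n] y)) {W : Set Y}
    (hW : IsOpen W) (hWn : W.Nonempty) (L : ℕ) :
    ∃ (V : ℕ → ℕ) (K : ℕ), (∀ i, V i < b) ∧ ∀ y : Y, ∀ w : ℕ → ℕ, (∀ i, w i < b) →
      ∃ n : ℕ, n + L ≤ K ∧ S^[n] y ∈ W ∧ ∀ j < L, V (n + j) = w j := by
  obtain ⟨x, hx⟩ := exists_gen hb
  obtain ⟨r, rfl⟩ := QuotientAddGroup.mk_surjective x
  have hbR : (0 : ℝ) < b := by positivity
  -- intervals
  set I : ℕ → Set UnitAddCircle := fun A => (fun t : ℝ => (t : UnitAddCircle)) ''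
    Ioo ((A : ℝ) / b ^ L) ((A + 1 : ℝ) / b ^ L) with hI
  have hIo : ∀ A, IsOpen (I A) := fun A => QuotientAddGroup.isOpenMap_coe _ isOpen_Ioo
  have hIn : ∀ A, (I A).Nonempty := fun A => Nonempty.image _ (nonempty_Ioo.2 (by gcongr; linarith))
  choose N hN using fun A => univ_pt hb hS hm hW hWn hx (hIo A) (hIn A)
  refine ⟨fun j => (⌊(b : ℝ) ^ (j + 1) * r⌋ % (b : ℤ)).toNat,
    (Finset.range (b ^ L)).sup N + L, fun i => ?_, fun y w hw => ?_⟩
  · have h1 := Int.emod_lt_of_pos ⌊(b : ℝ) ^ (i + 1) * r⌋ (by omega : (0 : ℤ) < b)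
    have h2 := Int.emod_nonneg ⌊(b : ℝ) ^ (i + 1) * r⌋ (by omega : (b : ℤ) ≠ 0)
    show (⌊(b : ℝ) ^ (i + 1) * r⌋ % (b : ℤ)).toNat < b
    omega
  · set A : ℕ := ∑ i ∈ Finset.range L, w (L - 1 - i) * b ^ i with hA
    have hAlt : A < b ^ L := sum_lt_pow hb L _ fun i => hw _
    obtain ⟨n, hn, hn1, hn2⟩ := hN A y
    refine ⟨n, ?_, hn2, fun j hj => ?_⟩
    · have := Finset.le_sup (f := N) (Finset.mem_range.2 hAlt)
      omega
    · obtain ⟨t, ht, hte⟩ := hn1
      have hte' : ((t - ((b ^ n : ℕ) : ℝ) * r : ℝ) : UnitAddCircle) = 0 := by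
        rw [AddCircle.coe_sub, sub_eq_zero,
          show (((b ^ n : ℕ) : ℝ) * r : ℝ) = (b ^ n : ℕ) • r by rw [nsmul_eq_mul]]
        exact hte
      obtain ⟨k, hk⟩ := (AddCircle.coe_eq_zero_iff 1).1 hte'
      have hk' : ((b ^ n : ℕ) : ℝ) * r = t - k := by
        rw [zsmul_eq_mul, mul_one] at hk
        linarith
      push_cast at hk'
      set e : ℕ := L - 1 - j with he
      have hLe : L = (j + 1) + e := by omega
      have hbL : (0 : ℝ) < (b : ℝ) ^ L := by positivity
      have ht1 : (A : ℝ) < t * (b : ℝ) ^ L := (div_lt_iff₀ hbL).1 ht.1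
      have ht2 : t * (b : ℝ) ^ L < (A : ℝ) + 1 := (lt_div_iff₀ hbL).1 ht.2
      have hbe : (0 : ℝ) < (b : ℝ) ^ e := by positivity
      have e1 : t * (b : ℝ) ^ L = ((b : ℝ) ^ (j + 1) * t) * (b : ℝ) ^ e := by
        rw [hLe, pow_add]; ring
      have hfl : ⌊(b : ℝ) ^ (j + 1) * t⌋ = ((A / b ^ e : ℕ) : ℤ) := by
        rw [Int.floor_eq_iff]
        have h1 : ((A / b ^ e : ℕ) : ℝ) * (b : ℝ) ^ e ≤ A := by
          have := Nat.div_mul_le_self A (b ^ e)
          exact_mod_cast this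
        have h2 : (A : ℝ) + 1 ≤ (((A / b ^ e : ℕ) : ℝ) + 1) * (b : ℝ) ^ e := by
          have h3 : A < (A / b ^ e + 1) * b ^ e := by
            have := Nat.lt_div_mul_add (a := A) (b := b ^ e) (by positivity)
            linarith
          have h4 : A + 1 ≤ (A / b ^ e + 1) * b ^ e := h3
          exact_mod_cast h4
        constructor
        · refine le_of_mul_le_mul_right ?_ hbe
          rw [← e1, Int.cast_natCast]
          linarith
        · refine lt_of_mul_lt_mul_right ?_ hbe.le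
          rw [← e1, Int.cast_natCast]
          linarith
      have hfl2 : ⌊(b : ℝ) ^ (n + j + 1) * r⌋ = ((A / b ^ e : ℕ) : ℤ) - (b : ℤ) ^ (j + 1) * k := by
        have e2 : (b : ℝ) ^ (n + j + 1) * r =
            (b : ℝ) ^ (j + 1) * t - (((b : ℤ) ^ (j + 1) * k : ℤ) : ℝ) := by
          rw [show n + j + 1 = (j + 1) + n by ring, pow_add, mul_assoc, hk']
          push_cast
          ring
        rw [e2, Int.floor_sub_intCast, hfl]
      show (⌊(b : ℝ) ^ (n + j + 1) * r⌋ % (b : ℤ)).toNat = w j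
      rw [hfl2]
      have e3 : (((A / b ^ e : ℕ) : ℤ) - (b : ℤ) ^ (j + 1) * k) % (b : ℤ) =
          ((A / b ^ e % b : ℕ) : ℤ) := by
        rw [pow_succ, show ((A / b ^ e : ℕ) : ℤ) - (b : ℤ) ^ j * (b : ℤ) * k =
          ((A / b ^ e : ℕ) : ℤ) + (b : ℤ) * (-((b : ℤ) ^ j * k)) by ring, Int.add_mul_emod_self_left]
        push_cast
        rfl
      rw [e3, Int.toNat_natCast, hA, digit_sum hb L (fun i => w (L - 1 - i)) (fun i => hw _) e
        (by omega)]
      congr 1
      omega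

/-- from the value of a block to its digits -/
lemma block_digit {b : ℕ} (n m K c : ℕ) (h : n / b ^ m % b ^ K = c) {j : ℕ}
    (hj : j < K) : n / b ^ (m + j) % b = c / b ^ j % b := by
  rw [← h, pow_add, ← Nat.div_div_eq_div_mul]
  have h1 : n / b ^ m % b ^ K / b ^ j % b = n / b ^ m / b ^ j % b := by
    obtain ⟨e, rfl⟩ : ∃ e, K = j + (e + 1) := ⟨K - j - 1, by omega⟩
    rw [pow_add, Nat.mod_mul_right_div_self, pow_succ', Nat.mod_mul_right_mod]
  exact h1.symm

/-- from the digits to the value of a block -/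
lemma digit_block {b : ℕ} : ∀ (k A B : ℕ),
    (∀ j < k, A / b ^ j % b = B / b ^ j % b) → A % b ^ k = B % b ^ k := by
  intro k
  induction k with
  | zero => intro A B _; simp [Nat.mod_one]
  | succ k ih =>
    intro A B h
    have h0 := h 0 (by omega)
    simp only [pow_zero, Nat.div_one] at h0
    have h1 := ih (A / b) (B / b) (fun j hj => by
      have := h (j + 1) (by omega)
      rw [pow_succ', ← Nat.div_div_eq_div_mul, ← Nat.div_div_eq_div_mul] at this
      exact this)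
    rw [pow_succ', Nat.mod_mul, Nat.mod_mul, h0, h1]

/-- **Universal blocks of places.** There are a length `K` and a value `c < b ^ K` such that, whenever
the block of the places `m, …, m + K - 1` of a number `n` in base `b` has the value `c`, then for every
`y` and every value `w < b ^ L` there is a place `i` with `m ≤ i`, `i + L < m + K`, at which the block
of length `L` has the value `w`, and `S ^ i y ∈ W`. -/
theorem univ_block [CompactSpace Y] [T2Space Y] {b : ℕ} (hb : 2 ≤ b) {S : Y → Y}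
    (hS : Continuous S) (hm : ∀ y, Dense (range fun n : ℕ => S^[n] y)) {W : Set Y}
    (hW : IsOpen W) (hWn : W.Nonempty) (L : ℕ) :
    ∃ (K c : ℕ), c < b ^ K ∧ ∀ n m : ℕ, n / b ^ m % b ^ K = c → ∀ y : Y, ∀ w < b ^ L,
      ∃ i : ℕ, m ≤ i ∧ i + L < m + K ∧ S^[i] y ∈ W ∧ n / b ^ i % b ^ L = w := by
  obtain ⟨V, K, hV, h⟩ := univ_word hb hS hm hW hWn (L + 1)
  refine ⟨K, ∑ r ∈ Finset.range K, V r * b ^ r, sum_lt_pow hb K V hV, fun n m hnm y w hw => ?_⟩
  obtain ⟨i, hi1, hi2, hi3⟩ := h (S^[m] y) (fun j => w / b ^ j % b)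
    (fun j => Nat.mod_lt _ (by omega))
  refine ⟨m + i, by omega, by omega, ?_, ?_⟩
  · rw [add_comm, Function.iterate_add_apply]
    exact hi2
  · have h1 : n / b ^ (m + i) % b ^ L = w % b ^ L := by
      apply digit_block
      intro j hj
      have h2 := block_digit n m K _ hnm (j := i + j) (by omega)
      rw [digit_sum hb K V hV (i + j) (by omega), hi3 j (by omega)] at h2
      rw [Nat.div_div_eq_div_mul, ← pow_add, show m + i + j = m + (i + j) by ring]
      exact h2
    rw [h1, Nat.mod_eq_of_lt hw]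

omit [TopologicalSpace Y] in
open Classical in
/-- counting: each occurrence of the universal block gives an occurrence at a visit place -/
theorem count {b : ℕ} {S : Y → Y} {W : Set Y} {L K c : ℕ}
    (h : ∀ n m : ℕ, n / b ^ m % b ^ K = c → ∀ y : Y, ∀ w < b ^ L,
      ∃ i : ℕ, m ≤ i ∧ i + L < m + K ∧ S^[i] y ∈ W ∧ n / b ^ i % b ^ L = w)
    (n u l : ℕ) (y : Y) (w : ℕ) (hw : w < b ^ L) :
    ((Finset.range (u + l)).filter (fun m : ℕ => u ≤ m ∧ m + K ≤ u + l ∧
        n / b ^ m % b ^ K = c)).card ≤ (K + 1) *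
      ((Finset.range (u + l)).filter (fun i : ℕ => u ≤ i ∧ i + L ≤ u + l ∧ S^[i] y ∈ W ∧
        n / b ^ i % b ^ L = w)).card := by
  set A := (Finset.range (u + l)).filter (fun m : ℕ => u ≤ m ∧ m + K ≤ u + l ∧
        n / b ^ m % b ^ K = c) with hA
  set B := (Finset.range (u + l)).filter (fun i : ℕ => u ≤ i ∧ i + L ≤ u + l ∧ S^[i] y ∈ W ∧
        n / b ^ i % b ^ L = w) with hB
  have h1 : ∀ m : ℕ, ∃ i : ℕ, n / b ^ m % b ^ K = c → m ≤ i ∧ i + L < m + K ∧ S^[i] y ∈ W ∧
      n / b ^ i % b ^ L = w := by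
    intro m
    by_cases hm : n / b ^ m % b ^ K = c
    · obtain ⟨i, hi⟩ := h n m hm y w hw
      exact ⟨i, fun _ => hi⟩
    · exact ⟨0, fun h => absurd h hm⟩
  choose f hf using h1
  have h2 : A.card ≤ (K + 1) * (A.image f).card := by
    refine Finset.card_le_mul_card_image A (K + 1) fun i _ => ?_
    have h3 : A.filter (fun m => f m = i) ⊆ Finset.Icc (i - K) i := by
      intro m hm
      rw [Finset.mem_filter, hA, Finset.mem_filter] at hm
      obtain ⟨⟨-, -, -, hm1⟩, rfl⟩ := hm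
      obtain ⟨h4, h5, -⟩ := hf m hm1
      rw [Finset.mem_Icc]
      omega
    refine (Finset.card_le_card h3).trans ?_
    rw [Nat.card_Icc]
    omega
  refine h2.trans (Nat.mul_le_mul_left _ (Finset.card_le_card ?_))
  intro i hi
  rw [Finset.mem_image] at hi
  obtain ⟨m, hm, rfl⟩ := hi
  rw [hA, Finset.mem_filter, Finset.mem_range] at hm
  obtain ⟨hm0, hm1, hm2, hm3⟩ := hm
  obtain ⟨h4, h5, h6, h7⟩ := hf m hm3
  rw [hB, Finset.mem_filter, Finset.mem_range]
  exact ⟨by omega, by omega, by omega, h6, h7⟩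

end Pool.Agent.Q227.Vis
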